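import Mathlib

set_option autoImplicit false

namespace Pool.Agent.Helper76.DL

open Subgroup
open scoped commutatorElement

/-- The derived series of a subgroup `S`, as subgroups of the ambient group. -/
def dser {G : Type*} [Group G] (S : Subgroup G) : ℕ → Subgroup G
  | 0 => S
  | n + 1 => ⁅dser S n, dser S n⁆

variable {G : Type*} [Group G] {H : Type*} [Group H]

@[simp] lemma dser_zero (S : Subgroup G) : dser S 0 = S := rfl

lemma dser_succ (S : Subgroup G) (n : ℕ) : dser S (n + 1) = ⁅dser S n, dser S n⁆ := rfl

lemma dser_mono {S T : Subgroup G} (h : S ≤ T) (n : ℕ) : dser S n ≤ dser T n := by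
  induction n with
  | zero => simpa using h
  | succ n ih => rw [dser_succ, dser_succ]; exact Subgroup.commutator_mono ih ih

lemma dser_add (S : Subgroup G) (m n : ℕ) : dser S (m + n) = dser (dser S m) n := by
  induction n with
  | zero => rfl
  | succ n ih => rw [← Nat.add_assoc, dser_succ, dser_succ, ih]

lemma dser_map (f : G →* H) (S : Subgroup G) (n : ℕ) :
    (dser S n).map f = dser (S.map f) n := by
  induction n with
  | zero => rfl
  | succ n ih => rw [dser_succ, dser_succ, Subgroup.map_commutator, ih]

lemma dser_comap_le (f : G →* H) (S : Subgroup H) (n : ℕ) :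
    dser (S.comap f) n ≤ (dser S n).comap f := by
  rw [← Subgroup.map_le_iff_le_comap, dser_map]
  exact dser_mono (Subgroup.map_comap_le f S) n

lemma dser_top (n : ℕ) : dser (⊤ : Subgroup G) n = derivedSeries G n := by
  induction n with
  | zero => rfl
  | succ n ih => rw [dser_succ, ih, derivedSeries_succ]

lemma dser_succ_le (S : Subgroup G) (n : ℕ) : dser S (n + 1) ≤ dser S n := by
  rw [dser_succ, Subgroup.commutator_le]
  intro a ha b hb
  rw [commutatorElement_def]
  exact mul_mem (mul_mem (mul_mem ha hb) (inv_mem ha)) (inv_mem hb)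

lemma dser_antitone (S : Subgroup G) : Antitone (dser S) :=
  antitone_nat_of_succ_le (dser_succ_le S)

lemma dser_le (S : Subgroup G) (n : ℕ) : dser S n ≤ S :=
  dser_antitone S (Nat.zero_le n)

lemma dser_bot (n : ℕ) : dser (⊥ : Subgroup G) n = ⊥ :=
  le_bot_iff.mp (dser_le _ n)

instance dser_top_normal (n : ℕ) : (dser (⊤ : Subgroup G) n).Normal := by
  rw [dser_top]; exact derivedSeries_normal G n

/-- the derived series computed inside the subgroup and in the ambient group agree -/
lemma dser_subtype (S : Subgroup G) (n : ℕ) :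
    (derivedSeries S n).map S.subtype = dser S n := by
  rw [← dser_top, dser_map]
  congr 1
  rw [← MonoidHom.range_eq_map, Subgroup.range_subtype]

lemma derivedSeries_eq_bot_iff (S : Subgroup G) (n : ℕ) :
    derivedSeries S n = ⊥ ↔ dser S n = ⊥ := by
  rw [← dser_subtype, Subgroup.map_eq_bot_iff_of_injective _ S.subtype_injective]

/-- conjugate of a subgroup by an element -/
def cj (g : G) (S : Subgroup G) : Subgroup G := S.map (MulAut.conj g).toMonoidHom

lemma mem_cj {g : G} {S : Subgroup G} {x : G} : x ∈ cj g S ↔ g⁻¹ * x * g ∈ S := by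
  unfold cj
  rw [Subgroup.mem_map]
  constructor
  · rintro ⟨y, hy, rfl⟩
    simpa [MulAut.conj_apply, mul_assoc] using hy
  · intro h
    exact ⟨_, h, by simp [MulAut.conj_apply, mul_assoc]⟩

lemma cj_mono (g : G) {S T : Subgroup G} (h : S ≤ T) : cj g S ≤ cj g T :=
  Subgroup.map_mono h

lemma dser_cj (g : G) (S : Subgroup G) (n : ℕ) : dser (cj g S) n = cj g (dser S n) := by
  unfold cj; rw [dser_map]

/-- multiplicative closure under a commutative quotient: commutators die -/
lemma comm_map_eq_one {B : Type*} [CommGroup B] (f : G →* B) (x y : G) : f ⁅x, y⁆ = 1 := by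
  rw [map_commutatorElement, commutatorElement_def]
  rw [mul_comm (f x) (f y)]; simp

end Pool.Agent.Helper76.DL
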