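import Mathlib
import Pool.Agent.Helper76.DL.Basic

set_option autoImplicit false

namespace Pool.Agent.Helper76.DL

open Subgroup
open scoped commutatorElement

section Ring

variable {A : Type*} [Ring A]

/-- units congruent to one modulo a multiplicatively closed additive subgroup -/
def U1 (J : AddSubgroup A) (hJ : ∀ x ∈ J, ∀ y ∈ J, x * y ∈ J) : Subgroup Aˣ where
  carrier := {u | (u : A) - 1 ∈ J ∧ ((u⁻¹ : Aˣ) : A) - 1 ∈ J}
  one_mem' := by simp [J.zero_mem]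
  mul_mem' := by
    rintro a b ⟨ha, ha'⟩ ⟨hb, hb'⟩
    constructor
    · have : ((a * b : Aˣ) : A) - 1 = (a - 1) * (b - 1) + (a - 1) + (b - 1) := by
        push_cast; noncomm_ring
      rw [this]; exact J.add_mem (J.add_mem (hJ _ ha _ hb) ha) hb
    · have : (((a * b)⁻¹ : Aˣ) : A) - 1
          = ((b⁻¹ : Aˣ) - 1) * ((a⁻¹ : Aˣ) - 1) + ((b⁻¹ : Aˣ) - 1) + ((a⁻¹ : Aˣ) - 1) := by
        rw [mul_inv_rev]; push_cast; noncomm_ring
      rw [this]; exact J.add_mem (J.add_mem (hJ _ hb' _ ha') hb') ha'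
  inv_mem' := by rintro a ⟨h, h'⟩; exact ⟨h', by simpa using h⟩

lemma mem_U1 {J : AddSubgroup A} {hJ : ∀ x ∈ J, ∀ y ∈ J, x * y ∈ J} {u : Aˣ} :
    u ∈ U1 J hJ ↔ (u : A) - 1 ∈ J ∧ ((u⁻¹ : Aˣ) : A) - 1 ∈ J := Iff.rfl

lemma comm_sub_one (x y : Aˣ) :
    ((⁅x, y⁆ : Aˣ) : A) - 1
      = (((x : A) - 1) * ((y : A) - 1) - ((y : A) - 1) * ((x : A) - 1)) *
        ((x⁻¹ : Aˣ) : A) * ((y⁻¹ : Aˣ) : A) := by
  have h1 : ((x : A) - 1) * ((y : A) - 1) - ((y : A) - 1) * ((x : A) - 1) = x * y - y * x := by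
    noncomm_ring
  rw [h1, sub_mul, sub_mul, commutatorElement_def]
  push_cast
  congr 1
  rw [mul_assoc (y : A) x, Units.mul_inv, mul_one, Units.mul_inv]

lemma comm_sub_one_mem {J'' J0 : AddSubgroup A} {x y : Aˣ}
    (hab : ((x : A) - 1) * ((y : A) - 1) - ((y : A) - 1) * ((x : A) - 1) ∈ J'')
    (hx' : ((x⁻¹ : Aˣ) : A) - 1 ∈ J0) (hy' : ((y⁻¹ : Aˣ) : A) - 1 ∈ J0)
    (h : ∀ a ∈ J'', ∀ b ∈ J0, a * b ∈ J'') : ((⁅x, y⁆ : Aˣ) : A) - 1 ∈ J'' := by
  rw [comm_sub_one]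
  set c := ((x : A) - 1) * ((y : A) - 1) - ((y : A) - 1) * ((x : A) - 1) with hc
  have h1 : c * ((x⁻¹ : Aˣ) : A) ∈ J'' := by
    have : c * ((x⁻¹ : Aˣ) : A) = c + c * (((x⁻¹ : Aˣ) : A) - 1) := by noncomm_ring
    rw [this]; exact J''.add_mem hab (h _ hab _ hx')
  have : c * ((x⁻¹ : Aˣ) : A) * ((y⁻¹ : Aˣ) : A)
      = c * ((x⁻¹ : Aˣ) : A) + c * ((x⁻¹ : Aˣ) : A) * (((y⁻¹ : Aˣ) : A) - 1) := by noncomm_ring
  rw [this]; exact J''.add_mem h1 (h _ h1 _ hy')

lemma comm_U1_le {J J' : AddSubgroup A} (hJ : ∀ x ∈ J, ∀ y ∈ J, x * y ∈ J)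
    (hJ' : ∀ x ∈ J', ∀ y ∈ J', x * y ∈ J')
    (hle : J' ≤ J) (h : ∀ x ∈ J, ∀ y ∈ J, x * y ∈ J') :
    ⁅U1 J hJ, U1 J hJ⁆ ≤ U1 J' hJ' := by
  rw [Subgroup.commutator_le]
  rintro x ⟨hx, hx'⟩ y ⟨hy, hy'⟩
  refine ⟨comm_sub_one_mem (J0 := J) (J'.sub_mem (h _ hx _ hy) (h _ hy _ hx)) hx' hy'
    (fun a ha b hb => h _ (hle ha) _ hb), ?_⟩
  rw [commutatorElement_inv]
  exact comm_sub_one_mem (J0 := J) (J'.sub_mem (h _ hy _ hx) (h _ hx _ hy)) hy' hx'
    (fun a ha b hb => h _ (hle ha) _ hb)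

end Ring

section Pattern

variable {m : ℕ} {R : Type*} [CommRing R]

/-- matrices supported on a relation -/
def JP (R : Type*) [CommRing R] (r : Fin m → Fin m → Prop) :
    AddSubgroup (Matrix (Fin m) (Fin m) R) where
  carrier := {a | ∀ u v, ¬ r u v → a u v = 0}
  zero_mem' := by intro u v _; rfl
  add_mem' := by
    intro a b ha hb u v h
    rw [Matrix.add_apply, ha u v h, hb u v h, add_zero]
  neg_mem' := by
    intro a ha u v h
    rw [Matrix.neg_apply, ha u v h, neg_zero]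

lemma mem_JP {r : Fin m → Fin m → Prop} {a : Matrix (Fin m) (Fin m) R} :
    a ∈ JP R r ↔ ∀ u v, ¬ r u v → a u v = 0 := Iff.rfl

lemma JP_mono {r r' : Fin m → Fin m → Prop} (h : ∀ u v, r u v → r' u v) : JP R r ≤ JP R r' :=
  fun _ ha u v hn => ha u v (fun hr => hn (h u v hr))

lemma JP_mul {r r' r'' : Fin m → Fin m → Prop} (h : ∀ u s v, r u s → r' s v → r'' u v)
    {a b : Matrix (Fin m) (Fin m) R} (ha : a ∈ JP R r) (hb : b ∈ JP R r') : a * b ∈ JP R r'' := by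
  intro u v hn
  rw [Matrix.mul_apply]
  apply Finset.sum_eq_zero
  intro s _
  by_cases h1 : r u s
  · by_cases h2 : r' s v
    · exact absurd (h u s v h1 h2) hn
    · rw [hb s v h2, mul_zero]
  · rw [ha u s h1, zero_mul]

/-- unitriangular-like group attached to a transitive relation -/
def UP (R : Type*) [CommRing R] (r : Fin m → Fin m → Prop)
    (hr : ∀ u s v, r u s → r s v → r u v) : Subgroup (Matrix (Fin m) (Fin m) R)ˣ :=
  U1 (JP R r) (fun _ hx _ hy => JP_mul hr hx hy)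

end Pattern

/-- distance at least `2^i` -/
def rr (m i : ℕ) (u v : Fin m) : Prop := (u : ℕ) + 2 ^ i ≤ v

/-- distance at least `2^i`, and intervals of length exactly `2^i` avoid the step `l → l+1` -/
def rl (m i l : ℕ) (u v : Fin m) : Prop :=
  (u : ℕ) + 2 ^ i ≤ v ∧ ¬ ((v : ℕ) = u + 2 ^ i ∧ (u : ℕ) ≤ l ∧ l < v)

/-- distance at least `2^i`, and the only interval of length exactly `2^i` starts at `w` -/
def rs (m i w : ℕ) (u v : Fin m) : Prop :=
  (u : ℕ) + 2 ^ i ≤ v ∧ ((v : ℕ) = u + 2 ^ i → (u : ℕ) = w)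

lemma rr_trans (m i : ℕ) : ∀ u s v : Fin m, rr m i u s → rr m i s v → rr m i u v := by
  intro u s v h1 h2
  have : 0 < 2 ^ i := by positivity
  unfold rr at *; omega

lemma rr_step (m i : ℕ) : ∀ u s v : Fin m, rr m i u s → rr m i s v → rr m (i + 1) u v := by
  intro u s v h1 h2
  unfold rr at *; rw [pow_succ]; omega

lemma rl_step (m i l : ℕ) : ∀ u s v : Fin m, rl m i l u s → rl m i l s v →
    rl m (i + 1) l u v := by
  intro u s v h1 h2
  unfold rl at *; rw [pow_succ]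
  obtain ⟨h1, h1'⟩ := h1
  obtain ⟨h2, h2'⟩ := h2
  refine ⟨by omega, ?_⟩
  rintro ⟨h3, h4, h5⟩
  by_cases h6 : l < s
  · exact h1' ⟨by omega, h4, h6⟩
  · exact h2' ⟨by omega, by omega, h5⟩

lemma rl_mono (m i l : ℕ) : ∀ u v : Fin m, rl m (i + 1) l u v → rl m i l u v := by
  intro u v h1
  unfold rl at *; rw [pow_succ] at h1
  have : 0 < 2 ^ i := by positivity
  obtain ⟨h1, h1'⟩ := h1
  exact ⟨by omega, by omega⟩

lemma rl_trans (m i l : ℕ) : ∀ u s v : Fin m, rl m i l u s → rl m i l s v → rl m i l u v :=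
  fun u s v h1 h2 => rl_mono m i l u v (rl_step m i l u s v h1 h2)

lemma rr_mono (m i : ℕ) : ∀ u v : Fin m, rr m (i + 1) u v → rr m i u v := by
  intro u v h1
  unfold rr at *; rw [pow_succ] at h1; omega

variable (R : Type*) [CommRing R]

lemma dser_UP_rr (m i : ℕ) :
    dser (UP R (rr m 0) (rr_trans m 0)) i ≤ UP R (rr m i) (rr_trans m i) := by
  induction i with
  | zero => exact le_rfl
  | succ i ih =>
    rw [dser_succ]
    refine (Subgroup.commutator_mono ih ih).trans ?_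
    exact comm_U1_le _ _ (JP_mono (rr_mono m i)) (fun x hx y hy => JP_mul (rr_step m i) hx hy)

lemma dser_UP_rl (m i l : ℕ) :
    dser (UP R (rl m 0 l) (rl_trans m 0 l)) i ≤ UP R (rl m i l) (rl_trans m i l) := by
  induction i with
  | zero => exact le_rfl
  | succ i ih =>
    rw [dser_succ]
    refine (Subgroup.commutator_mono ih ih).trans ?_
    exact comm_U1_le _ _ (JP_mono (rl_mono m i l)) (fun x hx y hy => JP_mul (rl_step m i l) hx hy)

lemma UP_eq_bot {m : ℕ} {r : Fin m → Fin m → Prop} (hr : ∀ u s v, r u s → r s v → r u v)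
    (h : ∀ u v, ¬ r u v) : UP R r hr = ⊥ := by
  rw [eq_bot_iff]
  rintro x ⟨hx, -⟩
  rw [Subgroup.mem_bot]
  ext u v
  have := hx u v (h u v)
  rw [Matrix.sub_apply, sub_eq_zero] at this
  rw [this]; rfl

/-! ### the group of unitriangular matrices of size `2^t+1` -/

/-- the unitriangular group -/
abbrev KK (t : ℕ) : Subgroup (Matrix (Fin (2 ^ t + 1)) (Fin (2 ^ t + 1)) R)ˣ :=
  UP R (rr (2 ^ t + 1) 0) (rr_trans _ 0)

lemma mem_KK {t : ℕ} {x : (Matrix (Fin (2 ^ t + 1)) (Fin (2 ^ t + 1)) R)ˣ} (hx : x ∈ KK R t) :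
    (x : Matrix (Fin (2 ^ t + 1)) (Fin (2 ^ t + 1)) R) - 1 ∈ JP R (rr (2 ^ t + 1) 0) ∧
    ((x⁻¹ : (Matrix (Fin (2 ^ t + 1)) (Fin (2 ^ t + 1)) R)ˣ) :
      Matrix (Fin (2 ^ t + 1)) (Fin (2 ^ t + 1)) R) - 1 ∈ JP R (rr (2 ^ t + 1) 0) := hx

lemma dser_KK_top (t : ℕ) : dser (⊤ : Subgroup (KK R t)) (t + 1) = ⊥ := by
  rw [← Subgroup.map_eq_bot_iff_of_injective _ (KK R t).subtype_injective, dser_map,
    ← MonoidHom.range_eq_map, Subgroup.range_subtype, eq_bot_iff]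
  refine (dser_UP_rr R _ _).trans ?_
  rw [UP_eq_bot]
  intro u v h
  unfold rr at h
  have := v.2
  rw [pow_succ] at h
  have h2 : 0 < 2 ^ t := by positivity
  omega

lemma superdiag_mul {t : ℕ} (l : Fin (2 ^ t)) {x y : (Matrix (Fin (2 ^ t + 1)) (Fin (2 ^ t + 1)) R)ˣ}
    (hx : x ∈ KK R t) (hy : y ∈ KK R t) :
    ((x * y : (Matrix (Fin (2 ^ t + 1)) (Fin (2 ^ t + 1)) R)ˣ) :
      Matrix (Fin (2 ^ t + 1)) (Fin (2 ^ t + 1)) R) l.castSucc l.succ
      = (x : Matrix (Fin (2 ^ t + 1)) (Fin (2 ^ t + 1)) R) l.castSucc l.succ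
        + (y : Matrix (Fin (2 ^ t + 1)) (Fin (2 ^ t + 1)) R) l.castSucc l.succ := by
  have h := JP_mul (rr_step (2 ^ t + 1) 0) (mem_KK R hx).1 (mem_KK R hy).1
    l.castSucc l.succ (by unfold rr; simp)
  have h1 : (1 : Matrix (Fin (2 ^ t + 1)) (Fin (2 ^ t + 1)) R) l.castSucc l.succ = 0 := by
    rw [Matrix.one_apply_ne]; exact (Fin.castSucc_lt_succ).ne
  have h2 : ((x : Matrix (Fin (2 ^ t + 1)) (Fin (2 ^ t + 1)) R) - 1) *
      ((y : Matrix (Fin (2 ^ t + 1)) (Fin (2 ^ t + 1)) R) - 1)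
      = x * y - x - y + 1 := by noncomm_ring
  rw [h2, Matrix.add_apply, Matrix.sub_apply, Matrix.sub_apply, h1] at h
  push_cast
  linear_combination h

/-- the `l`-th superdiagonal entry as a homomorphism -/
def sd (t : ℕ) (l : Fin (2 ^ t)) : KK R t →* Multiplicative R :=
  MonoidHom.mk' (fun x => Multiplicative.ofAdd
    (((x : (Matrix (Fin (2 ^ t + 1)) (Fin (2 ^ t + 1)) R)ˣ) :
      Matrix (Fin (2 ^ t + 1)) (Fin (2 ^ t + 1)) R) l.castSucc l.succ)) (by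
    intro x y
    rw [← ofAdd_add]
    congr 1
    exact superdiag_mul R l x.2 y.2)

lemma sd_apply (t : ℕ) (l : Fin (2 ^ t)) (x : KK R t) :
    sd R t l x = Multiplicative.ofAdd
    (((x : (Matrix (Fin (2 ^ t + 1)) (Fin (2 ^ t + 1)) R)ˣ) :
      Matrix (Fin (2 ^ t + 1)) (Fin (2 ^ t + 1)) R) l.castSucc l.succ) := rfl


lemma dser_ker_sd (t : ℕ) (l : Fin (2 ^ t)) : dser (sd R t l).ker t = ⊥ := by
  rw [← Subgroup.map_eq_bot_iff_of_injective _ (KK R t).subtype_injective, dser_map, eq_bot_iff]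
  have h1 : (sd R t l).ker.map (KK R t).subtype ≤
      UP R (rl (2 ^ t + 1) 0 l) (rl_trans _ 0 l) := by
    have key : ∀ x : KK R t, sd R t l x = 1 →
        ((x : (Matrix (Fin (2 ^ t + 1)) (Fin (2 ^ t + 1)) R)ˣ) :
          Matrix (Fin (2 ^ t + 1)) (Fin (2 ^ t + 1)) R) - 1 ∈ JP R (rl (2 ^ t + 1) 0 l) := by
      intro x hx u v huv
      by_cases h : rr (2 ^ t + 1) 0 u v
      · unfold rr at h
        unfold rl at huv
        push Not at huv
        obtain ⟨h3, h4, h5⟩ := huv h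
        have hu : u = l.castSucc := Fin.ext (by simp only [Fin.val_castSucc]; omega)
        have hv : v = l.succ := Fin.ext (by simp only [Fin.val_succ]; omega)
        subst hu; subst hv
        rw [sd_apply] at hx
        have hx' := Multiplicative.ofAdd.injective (hx.trans ofAdd_zero.symm)
        rw [Matrix.sub_apply, hx', Matrix.one_apply_ne (Fin.castSucc_lt_succ).ne, sub_zero]
      · exact (mem_KK R x.2).1 u v h
    rintro _ ⟨x, hx, rfl⟩
    refine ⟨key x hx, ?_⟩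
    have := key x⁻¹ (by rw [map_inv, hx, inv_one])
    exact this
  refine (dser_mono h1 t).trans ((dser_UP_rl R _ t l).trans ?_)
  rw [UP_eq_bot]
  intro u v h
  unfold rl at h
  obtain ⟨h1, h2⟩ := h
  have := v.2
  have := l.2
  exact h2 ⟨by omega, by omega, by omega⟩

/-- elementary unitriangular matrices -/
def tvu (t : ℕ) (l : Fin (2 ^ t)) (c : R) :
    (Matrix (Fin (2 ^ t + 1)) (Fin (2 ^ t + 1)) R)ˣ where
  val := Matrix.transvection l.castSucc l.succ c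
  inv := Matrix.transvection l.castSucc l.succ (-c)
  val_inv := by
    rw [Matrix.transvection_mul_transvection_same _ _ (Fin.castSucc_lt_succ).ne]; simp
  inv_val := by
    rw [Matrix.transvection_mul_transvection_same _ _ (Fin.castSucc_lt_succ).ne]; simp

lemma tvu_sub (t : ℕ) (l : Fin (2 ^ t)) (c : R) :
    Matrix.transvection l.castSucc l.succ c - 1 ∈ JP R (rr (2 ^ t + 1) 0) := by
  intro u v h
  rw [Matrix.transvection, add_sub_cancel_left, Matrix.single_apply_of_ne]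
  rintro ⟨rfl, rfl⟩
  apply h
  unfold rr; simp

/-- elementary unitriangular matrices as elements of the group -/
def tv (t : ℕ) (l : Fin (2 ^ t)) (c : R) : KK R t :=
  ⟨tvu R t l c, ⟨tvu_sub R t l c, tvu_sub R t l (-c)⟩⟩

lemma sd_tv (t : ℕ) (l j : Fin (2 ^ t)) (c : R) :
    sd R t j (tv R t l c) = if j = l then Multiplicative.ofAdd c else 1 := by
  rw [sd_apply]
  show Multiplicative.ofAdd (Matrix.transvection l.castSucc l.succ c j.castSucc j.succ) = _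
  rw [Matrix.transvection, Matrix.add_apply, Matrix.one_apply_ne (Fin.castSucc_lt_succ).ne,
    zero_add, Matrix.single_apply]
  by_cases h : j = l
  · subst h; simp
  · rw [if_neg h, if_neg]
    · rfl
    · rintro ⟨h1, -⟩
      exact h (Fin.castSucc_injective _ h1).symm

section NonTriv

variable {R}

lemma entry_mul {m : ℕ} {i w : ℕ} {a b : Matrix (Fin m) (Fin m) R}
    (ha : a ∈ JP R (rs m i w)) (hb : b ∈ JP R (rs m i (w + 2 ^ i)))
    (hw0 : w < m) (hw1 : w + 2 ^ i < m) (hw : w + 2 ^ (i + 1) < m) :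
    (a * b) ⟨w, hw0⟩ ⟨w + 2 ^ (i + 1), hw⟩
      = a ⟨w, hw0⟩ ⟨w + 2 ^ i, hw1⟩ * b ⟨w + 2 ^ i, hw1⟩ ⟨w + 2 ^ (i + 1), hw⟩ := by
  rw [Matrix.mul_apply]
  rw [Finset.sum_eq_single (⟨w + 2 ^ i, hw1⟩ : Fin m)]
  · intro s _ hs
    by_cases h1 : rs m i w ⟨w, hw0⟩ s
    · by_cases h2 : rs m i (w + 2 ^ i) s ⟨w + 2 ^ (i + 1), hw⟩
      · exfalso
        apply hs
        unfold rs at h1 h2
        simp only at h1 h2
        apply Fin.ext
        simp only
        have e : 2 ^ (i + 1) = 2 ^ i * 2 := pow_succ 2 i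
        omega
      · rw [hb _ _ h2, mul_zero]
    · rw [ha _ _ h1, zero_mul]
  · intro h; exact absurd (Finset.mem_univ _) h

lemma tree {t : ℕ} (S : Subgroup (KK R t))
    (hS : ∀ l : Fin (2 ^ t), ∃ k ∈ S, ∀ j : Fin (2 ^ t),
      sd R t j k = if j = l then Multiplicative.ofAdd 1 else 1) (i : ℕ) :
    ∀ w : ℕ, ∀ hw0 : w < 2 ^ t + 1, ∀ hw : w + 2 ^ i < 2 ^ t + 1, ∃ x ∈ dser S i,
      ((x : (Matrix (Fin (2 ^ t + 1)) (Fin (2 ^ t + 1)) R)ˣ) :
          Matrix (Fin (2 ^ t + 1)) (Fin (2 ^ t + 1)) R) - 1 ∈ JP R (rs (2 ^ t + 1) i w) ∧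
      (((x : (Matrix (Fin (2 ^ t + 1)) (Fin (2 ^ t + 1)) R)ˣ) :
          Matrix (Fin (2 ^ t + 1)) (Fin (2 ^ t + 1)) R) - 1) ⟨w, hw0⟩ ⟨w + 2 ^ i, hw⟩ = 1 := by
  induction i with
  | zero =>
    intro w hw0 hw
    obtain ⟨k, hk, hk'⟩ := hS ⟨w, by simpa using hw⟩
    refine ⟨k, hk, ?_, ?_⟩
    · intro u v huv
      by_cases h : rr (2 ^ t + 1) 0 u v
      · unfold rr at h
        unfold rs at huv
        push Not at huv
        obtain ⟨h3, h4⟩ := huv h
        simp only [pow_zero] at h3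
        have hu2 : (u : ℕ) < 2 ^ t := by have := v.2; omega
        have h5 := hk' ⟨u, hu2⟩
        rw [if_neg (by intro h; exact h4 (by simpa using congrArg Fin.val h)), sd_apply] at h5
        have h6 := Multiplicative.ofAdd.injective (h5.trans ofAdd_zero.symm)
        have hu : u = (⟨u, hu2⟩ : Fin (2 ^ t)).castSucc := Fin.ext rfl
        have hv : v = (⟨u, hu2⟩ : Fin (2 ^ t)).succ := Fin.ext (by simp only [Fin.val_succ]; omega)
        rw [Matrix.sub_apply, Matrix.one_apply_ne (by intro h; rw [h] at h3; omega), sub_zero]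
        exact (congrArg₂ (fun a b => ((k : (Matrix (Fin (2 ^ t + 1)) (Fin (2 ^ t + 1)) R)ˣ) :
          Matrix (Fin (2 ^ t + 1)) (Fin (2 ^ t + 1)) R) a b) hu hv).trans h6
      · exact (mem_KK R k.2).1 u v h
    · have h5 := hk' ⟨w, by simpa using hw⟩
      rw [if_pos rfl, sd_apply] at h5
      have h6 := Multiplicative.ofAdd.injective h5
      rw [Matrix.sub_apply, Matrix.one_apply_ne (by simp [Fin.ext_iff]), sub_zero]
      exact (congrArg₂ (fun a b => ((k : (Matrix (Fin (2 ^ t + 1)) (Fin (2 ^ t + 1)) R)ˣ) :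
          Matrix (Fin (2 ^ t + 1)) (Fin (2 ^ t + 1)) R) a b)
          (x := (⟨w, hw0⟩ : Fin (2 ^ t + 1)))
          (x' := (⟨w, by simpa using hw⟩ : Fin (2 ^ t)).castSucc)
          (y := (⟨w + 2 ^ 0, hw⟩ : Fin (2 ^ t + 1)))
          (y' := (⟨w, by simpa using hw⟩ : Fin (2 ^ t)).succ) rfl
          (Fin.ext (by simp))).trans h6
  | succ i ih =>
    intro w hw0 hw
    have e : 2 ^ (i + 1) = 2 ^ i * 2 := pow_succ 2 i
    have e0 : 0 < 2 ^ i := by positivity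
    obtain ⟨x, hx, hx1, hx2⟩ := ih w hw0 (by omega)
    obtain ⟨y, hy, hy1, hy2⟩ := ih (w + 2 ^ i) (by omega) (by omega)
    refine ⟨⁅x, y⁆, Subgroup.commutator_mem_commutator hx hy, ?_, ?_⟩
    · have := comm_sub_one_mem (x := (x : (Matrix (Fin (2 ^ t + 1)) (Fin (2 ^ t + 1)) R)ˣ))
        (y := (y : (Matrix (Fin (2 ^ t + 1)) (Fin (2 ^ t + 1)) R)ˣ))
        (J'' := JP R (rs (2 ^ t + 1) (i + 1) w)) (J0 := JP R (rr (2 ^ t + 1) 0)) ?_
        (mem_KK R x.2).2 (mem_KK R y.2).2 ?_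
      · exact this
      · refine AddSubgroup.sub_mem _ (JP_mul ?_ hx1 hy1) (JP_mul ?_ hy1 hx1)
        · intro u s v h1 h2
          unfold rs at *
          omega
        · intro u s v h1 h2
          unfold rs at *
          omega
      · intro a ha b hb
        refine JP_mul ?_ ha hb
        intro u s v h1 h2
        unfold rs rr at *
        omega
    · set a := ((x : (Matrix (Fin (2 ^ t + 1)) (Fin (2 ^ t + 1)) R)ˣ) :
          Matrix (Fin (2 ^ t + 1)) (Fin (2 ^ t + 1)) R) - 1 with ha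
      set b := ((y : (Matrix (Fin (2 ^ t + 1)) (Fin (2 ^ t + 1)) R)ˣ) :
          Matrix (Fin (2 ^ t + 1)) (Fin (2 ^ t + 1)) R) - 1 with hb
      set xi := (((x : (Matrix (Fin (2 ^ t + 1)) (Fin (2 ^ t + 1)) R)ˣ)⁻¹ :
        (Matrix (Fin (2 ^ t + 1)) (Fin (2 ^ t + 1)) R)ˣ) :
          Matrix (Fin (2 ^ t + 1)) (Fin (2 ^ t + 1)) R) with hxi
      set yi := (((y : (Matrix (Fin (2 ^ t + 1)) (Fin (2 ^ t + 1)) R)ˣ)⁻¹ :
        (Matrix (Fin (2 ^ t + 1)) (Fin (2 ^ t + 1)) R)ˣ) :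
          Matrix (Fin (2 ^ t + 1)) (Fin (2 ^ t + 1)) R) with hyi
      have hxi1 : xi - 1 ∈ JP R (rr (2 ^ t + 1) 0) := (mem_KK R x.2).2
      have hyi1 : yi - 1 ∈ JP R (rr (2 ^ t + 1) 0) := (mem_KK R y.2).2
      have hcomm : (((⁅x, y⁆ : KK R t) : (Matrix (Fin (2 ^ t + 1)) (Fin (2 ^ t + 1)) R)ˣ) :
          Matrix (Fin (2 ^ t + 1)) (Fin (2 ^ t + 1)) R) - 1 = (a * b - b * a) * xi * yi := by
        exact comm_sub_one _ _
      rw [hcomm]
      have hc : a * b - b * a ∈ JP R (rs (2 ^ t + 1) (i + 1) w) := by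
        refine AddSubgroup.sub_mem _ (JP_mul ?_ hx1 hy1) (JP_mul ?_ hy1 hx1)
        · intro u s v h1 h2
          unfold rs at *
          omega
        · intro u s v h1 h2
          unfold rs at *
          omega
      have hfar : (a * b - b * a) * ((xi - 1) + (yi - 1) + (xi - 1) * (yi - 1)) ∈
          JP R (fun u v : Fin (2 ^ t + 1) => (u : ℕ) + 2 ^ (i + 1) < v) := by
        refine JP_mul (r := rs (2 ^ t + 1) (i + 1) w) (r' := rr (2 ^ t + 1) 0) ?_ hc ?_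
        · intro u s v h1 h2
          unfold rs rr at *
          simp only [pow_zero] at h2
          omega
        · exact AddSubgroup.add_mem _ (AddSubgroup.add_mem _ hxi1 hyi1)
            (JP_mul (rr_trans _ 0) hxi1 hyi1)
      have hsplit : (a * b - b * a) * xi * yi = a * b - b * a
          + (a * b - b * a) * ((xi - 1) + (yi - 1) + (xi - 1) * (yi - 1)) := by noncomm_ring
      rw [hsplit, Matrix.add_apply, hfar _ _ (by simp), add_zero, Matrix.sub_apply,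
        entry_mul hx1 hy1 hw0 (by omega) hw]
      have hba : (b * a) ⟨w, hw0⟩ ⟨w + 2 ^ (i + 1), hw⟩ = 0 := by
        refine JP_mul (r := rs (2 ^ t + 1) i (w + 2 ^ i)) (r' := rs (2 ^ t + 1) i w)
          (r'' := fun u v : Fin (2 ^ t + 1) => (u : ℕ) + 2 ^ (i + 1) < v) ?_ hy1 hx1 _ _ (by simp)
        intro u s v h1 h2
        unfold rs at *
        omega
      rw [hba, sub_zero, hx2]
      have : b ⟨w + 2 ^ i, by omega⟩ ⟨w + 2 ^ (i + 1), hw⟩ = 1 := by
        rw [← hy2]; congr 2; omega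
      rw [this, one_mul]

lemma dser_ne_bot [Nontrivial R] {t : ℕ} (S : Subgroup (KK R t))
    (hS : ∀ l : Fin (2 ^ t), ∃ k ∈ S, ∀ j : Fin (2 ^ t),
      sd R t j k = if j = l then Multiplicative.ofAdd 1 else 1) : dser S t ≠ ⊥ := by
  intro hbot
  obtain ⟨x, hx, -, hx2⟩ := tree S hS t 0 (by simp) (by simp)
  rw [hbot, Subgroup.mem_bot] at hx
  subst hx
  simp at hx2

end NonTriv

end Pool.Agent.Helper76.DL
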