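import Mathlib
import Pool.Agent.Helper76.DL.Tri

set_option autoImplicit false

namespace Pool.Agent.Helper76.DL

open Subgroup
open scoped commutatorElement Pointwise

section Setup

variable {G : Type} [Group G] (Q : Subgroup G) (N : ℕ)

/-- tuples of subsets of `G` such that every conjugate of `Q` fixes one of the components -/
def Om : Type := {ω : Fin N → Set G // ∀ g : G, ∃ l, ∀ x ∈ Q, x • (g • ω l) = g • ω l}

instance : MulAction G (Om Q N) where
  smul h ω := ⟨fun l => h • ω.1 l, fun g => by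
    obtain ⟨l, hl⟩ := ω.2 (g * h)
    exact ⟨l, fun x hx => by simpa [mul_smul] using hl x hx⟩⟩
  one_smul ω := Subtype.ext (funext fun l => one_smul G (ω.1 l))
  mul_smul a b ω := Subtype.ext (funext fun l => mul_smul a b (ω.1 l))

lemma Om_smul (h : G) (ω : Om Q N) (l : Fin N) : (h • ω).1 l = h • ω.1 l := rfl

variable {K : Type} [Group K] {B : Type} [CommGroup B] (s : Fin N → K →* B)

/-- functions whose `l`-th coordinate depends only on the `l`-th component -/
def Yg : Subgroup (Om Q N → K) where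
  carrier := {y | ∀ l (ω ω' : Om Q N), ω.1 l = ω'.1 l → s l (y ω) = s l (y ω')}
  one_mem' := by intro l ω ω' _; rfl
  mul_mem' := by
    intro a b ha hb l ω ω' h
    rw [Pi.mul_apply, Pi.mul_apply, map_mul, map_mul, ha l ω ω' h, hb l ω ω' h]
  inv_mem' := by
    intro a ha l ω ω' h
    rw [Pi.inv_apply, Pi.inv_apply, map_inv, map_inv, ha l ω ω' h]

/-- translation action on functions -/
def actFun (g : G) (y : Yg Q N s) : Yg Q N s :=
  ⟨fun ω => y.1 (g⁻¹ • ω), fun l ω ω' h => y.2 l _ _ (by rw [Om_smul, Om_smul, h])⟩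

lemma actFun_apply (g : G) (y : Yg Q N s) (ω : Om Q N) :
    (actFun Q N s g y).1 ω = y.1 (g⁻¹ • ω) := rfl

/-- translation action on functions, as automorphisms -/
def actEquiv (g : G) : MulAut (Yg Q N s) where
  toFun := actFun Q N s g
  invFun := actFun Q N s g⁻¹
  left_inv y := Subtype.ext (funext fun ω => by
    rw [actFun_apply, actFun_apply, smul_smul]; simp)
  right_inv y := Subtype.ext (funext fun ω => by
    rw [actFun_apply, actFun_apply, smul_smul]; simp)
  map_mul' a b := rfl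

/-- translation action on functions, as a homomorphism -/
def actHom : G →* MulAut (Yg Q N s) :=
  MonoidHom.mk' (actEquiv Q N s) (by
    intro a b
    apply MulEquiv.ext
    intro y
    apply Subtype.ext
    funext ω
    show y.1 ((a * b)⁻¹ • ω) = y.1 (b⁻¹ • (a⁻¹ • ω))
    rw [smul_smul, mul_inv_rev])

lemma actHom_apply (g : G) (y : Yg Q N s) (ω : Om Q N) :
    (actHom Q N s g y).1 ω = y.1 (g⁻¹ • ω) := rfl

/-- the extended group -/
abbrev XX : Type := (Yg Q N s) ⋊[actHom Q N s] G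

/-- evaluation at a point -/
def ev (ω : Om Q N) : Yg Q N s →* K := (Pi.evalMonoidHom _ ω).comp (Yg Q N s).subtype

lemma ev_apply (ω : Om Q N) (y : Yg Q N s) : ev Q N s ω y = y.1 ω := rfl

/-- evaluation at `ω` on a subgroup fixing `ω` -/
def evT (T : Subgroup G) (ω : Om Q N) (hT : ∀ x ∈ T, x • ω = ω) :
    (T.comap (SemidirectProduct.rightHom : XX Q N s →* G)) →* K :=
  MonoidHom.mk' (fun z => z.1.left.1 ω) (by
    intro a b
    show (a.1.left * actHom Q N s a.1.right b.1.left).1 ω = _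
    show a.1.left.1 ω * b.1.left.1 (a.1.right⁻¹ • ω) = _
    have : a.1.right⁻¹ • ω = ω := hT _ (T.inv_mem a.2)
    rw [this])

lemma dser_comap_fix (T : Subgroup G) (ω : Om Q N) (hT : ∀ x ∈ T, x • ω = ω) (n : ℕ)
    (hK : dser (⊤ : Subgroup K) n = ⊥) (z : XX Q N s)
    (hz : z ∈ dser (T.comap (SemidirectProduct.rightHom : XX Q N s →* G)) n) :
    z.left.1 ω = 1 := by
  rw [← dser_subtype, ← dser_top] at hz
  obtain ⟨z', hz', rfl⟩ := hz
  have h1 : z' ∈ (dser (⊤ : Subgroup K) n).comap (evT Q N s T ω hT) := by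
    apply dser_comap_le
    exact dser_mono (fun _ _ => Subgroup.mem_top _) n hz'
  rw [hK, Subgroup.mem_comap, Subgroup.mem_bot] at h1
  exact h1

/-- the `l`-th coordinate at `ω`, on a subgroup fixing the `l`-th component of `ω` -/
def chiT (T : Subgroup G) (ω : Om Q N) (l : Fin N) (hT : ∀ x ∈ T, x • ω.1 l = ω.1 l) :
    (T.comap (SemidirectProduct.rightHom : XX Q N s →* G)) →* B :=
  MonoidHom.mk' (fun z => s l (z.1.left.1 ω)) (by
    intro a b
    show s l (a.1.left.1 ω * b.1.left.1 (a.1.right⁻¹ • ω)) = _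
    rw [map_mul]
    congr 1
    apply b.1.left.2 l
    rw [Om_smul]
    exact hT _ (T.inv_mem a.2))

lemma comm_comap_fix (T : Subgroup G) (ω : Om Q N) (l : Fin N) (hT : ∀ x ∈ T, x • ω.1 l = ω.1 l)
    (z : XX Q N s)
    (hz : z ∈ dser (T.comap (SemidirectProduct.rightHom : XX Q N s →* G)) 1) :
    s l (z.left.1 ω) = 1 := by
  rw [← dser_subtype, ← dser_top] at hz
  obtain ⟨z', hz', rfl⟩ := hz
  have h1 : z' ∈ (dser (⊤ : Subgroup B) 1).comap (chiT Q N s T ω l hT) := by
    apply dser_comap_le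
    exact dser_mono (fun _ _ => Subgroup.mem_top _) 1 hz'
  have h2 : dser (⊤ : Subgroup B) 1 = ⊥ := by
    rw [dser_succ, eq_bot_iff, Subgroup.commutator_le]
    intro x _ y _
    rw [Subgroup.mem_bot]
    exact comm_map_eq_one (MonoidHom.id B) x y
  rw [h2, Subgroup.mem_comap, Subgroup.mem_bot] at h1
  exact h1

lemma claim1 (M : Subgroup G) (m t : ℕ) (hQ : Q = dser M m) (hM : dser M (m + 1) = ⊥)
    (hK : ∀ l, dser (s l).ker t = ⊥) :
    dser (M.comap (SemidirectProduct.rightHom : XX Q N s →* G)) (m + 1 + t) = ⊥ := by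
  have hright : ∀ z ∈ dser (M.comap (SemidirectProduct.rightHom : XX Q N s →* G)) (m + 1),
      z.right = 1 := by
    intro z hz
    have := dser_comap_le _ _ _ hz
    rw [hM, Subgroup.mem_comap, Subgroup.mem_bot] at this
    exact this
  rw [eq_bot_iff]
  intro z hz
  have hz1 : z.right = 1 := hright z (by rw [dser_add] at hz; exact dser_le _ _ hz)
  have hz2 : ∀ ω, z.left.1 ω = 1 := by
    intro ω
    obtain ⟨l, hl⟩ := ω.2 1
    have hl' : ∀ x ∈ Q, x • ω.1 l = ω.1 l := by
      intro x hx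
      simpa using hl x hx
    have h1 : dser (M.comap (SemidirectProduct.rightHom : XX Q N s →* G)) (m + 1) ≤
        ((s l).ker.comap (ev Q N s ω)).map SemidirectProduct.inl := by
      intro z' hz'
      refine ⟨z'.left, ?_, ?_⟩
      · show s l (z'.left.1 ω) = 1
        apply comm_comap_fix Q N s Q ω l hl'
        rw [dser_add] at hz'
        refine dser_mono ?_ 1 hz'
        have := dser_comap_le (SemidirectProduct.rightHom : XX Q N s →* G) M m
        rw [← hQ] at this
        exact this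
      · apply SemidirectProduct.ext
        · rfl
        · exact (hright z' hz').symm
    rw [dser_add] at hz
    have h2 := dser_mono h1 t hz
    rw [← dser_map] at h2
    obtain ⟨y, hy, rfl⟩ := h2
    have h3 := dser_comap_le _ _ _ hy
    rw [hK l, Subgroup.mem_comap, Subgroup.mem_bot] at h3
    exact h3
  rw [Subgroup.mem_bot]
  apply SemidirectProduct.ext
  · apply Subtype.ext
    funext ω
    exact hz2 ω
  · exact hz1

end Setup

section Concrete

variable {G : Type} [Group G] (Q : Subgroup G) (t p : ℕ)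

/-- the extended group, with unitriangular matrices over `ZMod p` -/
abbrev XT : Type := XX Q (2 ^ t) (sd (ZMod p) t)

/-- the function space with prescribed superdiagonal entries -/
def yfun (l : Fin (2 ^ t)) (φ : Set G → ZMod p) : Yg Q (2 ^ t) (sd (ZMod p) t) :=
  ⟨fun ω => tv (ZMod p) t l (φ (ω.1 l)), by
    intro j ω ω' h
    rw [sd_tv, sd_tv]
    by_cases hj : j = l
    · subst hj; rw [h]
    · rw [if_neg hj, if_neg hj]⟩

/-- superdiagonal functions realised in the `i`-th derived subgroup -/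
def Phi (i : ℕ) (l : Fin (2 ^ t)) : AddSubgroup (Set G → ZMod p) where
  carrier := {φ | ∃ y : Yg Q (2 ^ t) (sd (ZMod p) t),
    (SemidirectProduct.inl y : XT Q t p) ∈ dser (⊤ : Subgroup (XT Q t p)) i ∧
    ∀ (ω : Om Q (2 ^ t)) (j : Fin (2 ^ t)),
      sd (ZMod p) t j (y.1 ω) = if j = l then Multiplicative.ofAdd (φ (ω.1 l)) else 1}
  zero_mem' := ⟨1, by rw [map_one]; exact one_mem _, by
    intro ω j
    show sd (ZMod p) t j 1 = _
    rw [map_one]; simp⟩
  add_mem' := by
    rintro φ ψ ⟨y, hy, hy'⟩ ⟨z, hz, hz'⟩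
    refine ⟨y * z, by rw [map_mul]; exact mul_mem hy hz, ?_⟩
    intro ω j
    show sd (ZMod p) t j (y.1 ω * z.1 ω) = _
    rw [map_mul, hy', hz']
    by_cases h : j = l
    · simp [h]
    · simp [h]
  neg_mem' := by
    rintro φ ⟨y, hy, hy'⟩
    refine ⟨y⁻¹, by rw [map_inv]; exact inv_mem hy, ?_⟩
    intro ω j
    show sd (ZMod p) t j (y.1 ω)⁻¹ = _
    rw [map_inv, hy']
    by_cases h : j = l
    · simp [h]
    · simp [h]

lemma Phi_zero (l : Fin (2 ^ t)) (φ : Set G → ZMod p) : φ ∈ Phi Q t p 0 l := by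
  refine ⟨yfun Q t p l φ, Subgroup.mem_top _, ?_⟩
  intro ω j
  exact sd_tv (ZMod p) t l j _

lemma Phi_comm (i : ℕ) (l : Fin (2 ^ t)) (φ : Set G → ZMod p) (h : φ ∈ Phi Q t p i l)
    (x : G) (hx : x ∈ dser (⊤ : Subgroup G) i) :
    (fun c => φ (x⁻¹ • c) - φ c) ∈ Phi Q t p (i + 1) l := by
  obtain ⟨y, hy, hy'⟩ := h
  have hx' : (SemidirectProduct.inr x : XT Q t p) ∈ dser (⊤ : Subgroup (XT Q t p)) i := by
    have h1 : (SemidirectProduct.inr x : XT Q t p) ∈
        (dser (⊤ : Subgroup G) i).map SemidirectProduct.inr := ⟨x, hx, rfl⟩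
    rw [dser_map] at h1
    exact dser_mono le_top i h1
  have hc := Subgroup.commutator_mem_commutator hx' hy
  refine ⟨actHom Q (2 ^ t) (sd (ZMod p) t) x y * y⁻¹, ?_, ?_⟩
  · rw [dser_succ]
    convert hc using 1
    rw [commutatorElement_def, map_mul, map_inv, SemidirectProduct.inl_aut, map_inv]
  · intro ω j
    show sd (ZMod p) t j (y.1 (x⁻¹ • ω) * (y.1 ω)⁻¹) = _
    rw [map_mul, map_inv, hy', hy']
    by_cases h : j = l
    · simp only [h, if_true, Om_smul]
      rw [← div_eq_mul_inv, ← ofAdd_sub]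
    · simp [h]

lemma Phi_main [Fact p.Prime] (A : Subgroup G) [Fintype A] (hA : (Fintype.card A : ZMod p) ≠ 0)
    (a : ℕ) (ha : A ≤ dser (⊤ : Subgroup G) a) (i : ℕ) (hi : i ≤ a + 1) (l : Fin (2 ^ t)) :
    ∀ (φ : Set G → ZMod p), (∀ c, ∑ x : A, φ ((x : G)⁻¹ • c) = 0) → φ ∈ Phi Q t p i l := by
  induction i with
  | zero => intro φ _; exact Phi_zero Q t p l φ
  | succ i ih =>
    intro φ hφ
    set ψ : Set G → ZMod p := fun c => -(Fintype.card A : ZMod p)⁻¹ * φ c with hψ
    have hψ0 : ∀ c, ∑ x : A, ψ ((x : G)⁻¹ • c) = 0 := by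
      intro c
      simp only [hψ]
      rw [← Finset.mul_sum, hφ c, mul_zero]
    have hψ1 : ψ ∈ Phi Q t p i l := ih (by omega) ψ hψ0
    have hsum : φ = ∑ x : A, (fun c => ψ ((x : G)⁻¹ • c) - ψ c) := by
      funext c
      rw [Finset.sum_apply, Finset.sum_sub_distrib, hψ0 c, Finset.sum_const, Finset.card_univ,
        zero_sub, nsmul_eq_mul]
      simp only [hψ]
      field_simp
    rw [hsum]
    apply AddSubgroup.sum_mem
    intro x _
    apply Phi_comm Q t p i l ψ hψ1
    exact dser_antitone _ (by omega) (ha x.2)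

lemma claim2 [Fact p.Prime] [Nontrivial (ZMod p)] (A : Subgroup G) [Fintype A]
    (hA : (Fintype.card A : ZMod p) ≠ 0)
    (a : ℕ) (ha : A ≤ dser (⊤ : Subgroup G) a) (ω : Om Q (2 ^ t))
    (hω : ∀ l, ∃ x ∈ A, x • ω.1 l ≠ ω.1 l) :
    ∃ y : Yg Q (2 ^ t) (sd (ZMod p) t),
      (SemidirectProduct.inl y : XT Q t p) ∈ dser (⊤ : Subgroup (XT Q t p)) (a + 1 + t) ∧
      y.1 ω ≠ 1 := by
  classical
  set D := dser (⊤ : Subgroup (XT Q t p)) (a + 1) with hD
  set S := (D.comap SemidirectProduct.inl).map (ev Q (2 ^ t) (sd (ZMod p) t) ω) with hS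
  have h1 : ∀ l : Fin (2 ^ t), ∃ k ∈ S, ∀ j : Fin (2 ^ t),
      sd (ZMod p) t j k = if j = l then Multiplicative.ofAdd 1 else 1 := by
    intro l
    obtain ⟨x, hx, hxl⟩ := hω l
    set F : A → Set G → ZMod p := fun z c => if (z : G)⁻¹ • c = ω.1 l then 1 else 0 with hF
    set φ : Set G → ZMod p := fun c => (if c = ω.1 l then 1 else 0) -
      (if c = x • ω.1 l then 1 else 0) with hφ
    have hφ0 : ∀ c, ∑ z : A, φ ((z : G)⁻¹ • c) = 0 := by
      intro c
      simp only [hφ]
      rw [Finset.sum_sub_distrib, sub_eq_zero]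
      have e1 : ∀ z : A, (if ((z : G)⁻¹ • c = x • ω.1 l) then (1 : ZMod p) else 0)
          = (if ((((z * ⟨x, hx⟩ : A) : G))⁻¹ • c = ω.1 l) then (1 : ZMod p) else 0) := by
        intro z
        congr 1
        rw [eq_iff_iff]
        show _ ↔ ((z : G) * x)⁻¹ • c = ω.1 l
        rw [mul_inv_rev, mul_smul]
        exact inv_smul_eq_iff.symm
      rw [Finset.sum_congr rfl (fun z _ => e1 z)]
      exact (Equiv.sum_comp (Equiv.mulRight (⟨x, hx⟩ : A))
        (fun z : A => if ((z : G)⁻¹ • c = ω.1 l) then (1 : ZMod p) else 0)).symm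
    obtain ⟨y, hy, hy'⟩ := Phi_main Q t p A hA a ha (a + 1) le_rfl l φ hφ0
    refine ⟨y.1 ω, ⟨y, hy, rfl⟩, ?_⟩
    intro j
    rw [hy']
    have : φ (ω.1 l) = 1 := by
      simp [hφ, Ne.symm hxl]
    rw [this]
  have h2 := dser_ne_bot S h1
  obtain ⟨⟨k, hk⟩, hk1⟩ := (Subgroup.ne_bot_iff_exists_ne_one).mp h2
  rw [hS, ← dser_map] at hk
  obtain ⟨y, hy, rfl⟩ := hk
  refine ⟨y, ?_, ?_⟩
  · rw [dser_add]
    exact dser_comap_le _ _ _ hy
  · intro h
    apply hk1
    exact Subtype.ext h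

instance [Finite G] : Finite (Om Q (2 ^ t)) := by unfold Om; infer_instance

instance [Finite G] [NeZero p] : Finite (Yg Q (2 ^ t) (sd (ZMod p) t)) := by
  have : Finite (ZMod p) := Finite.of_fintype _
  infer_instance

instance [Finite G] [NeZero p] : Finite (XT Q t p) :=
  Finite.of_equiv _ SemidirectProduct.equivProd.symm

lemma Yg_solvable : Group.IsSolvable (Yg Q (2 ^ t) (sd (ZMod p) t)) := by
  rw [Group.isSolvable_def]
  refine ⟨t + 1, ?_⟩
  rw [← dser_top, eq_bot_iff]
  intro y hy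
  rw [Subgroup.mem_bot]
  apply Subtype.ext
  funext ω
  have h1 : y ∈ (dser (⊤ : Subgroup (KK (ZMod p) t)) (t + 1)).comap
      (ev Q (2 ^ t) (sd (ZMod p) t) ω) := by
    apply dser_comap_le
    exact dser_mono (fun _ _ => Subgroup.mem_top _) _ hy
  rw [dser_KK_top, Subgroup.mem_comap, Subgroup.mem_bot] at h1
  exact h1

lemma XT_solvable [Group.IsSolvable G] : Group.IsSolvable (XT Q t p) := by
  have := Yg_solvable Q t p
  refine Group.isSolvable_of_ker_le_range
    (SemidirectProduct.inl : Yg Q (2 ^ t) (sd (ZMod p) t) →* XT Q t p)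
    (SemidirectProduct.rightHom : XT Q t p →* G) ?_
  rw [SemidirectProduct.range_inl_eq_ker_rightHom]

/-- elements fixing `ω` with trivial value at `ω` -/
def Bw (ω : Om Q (2 ^ t)) : Subgroup (XT Q t p) where
  carrier := {z | z.right • ω = ω ∧ z.left.1 ω = 1}
  one_mem' := ⟨one_smul _ _, rfl⟩
  mul_mem' := by
    rintro a b ⟨ha, ha'⟩ ⟨hb, hb'⟩
    refine ⟨?_, ?_⟩
    · show (a.right * b.right) • ω = ω
      rw [mul_smul, hb, ha]
    · show a.left.1 ω * b.left.1 (a.right⁻¹ • ω) = 1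
      have : a.right⁻¹ • ω = ω := by rw [inv_smul_eq_iff]; exact ha.symm
      rw [this, ha', hb', one_mul]
  inv_mem' := by
    rintro a ⟨ha, ha'⟩
    have h : a.right⁻¹ • ω = ω := by rw [inv_smul_eq_iff]; exact ha.symm
    refine ⟨h, ?_⟩
    show (a.left.1 ((a.right⁻¹)⁻¹ • ω))⁻¹ = 1
    rw [inv_inv, ha, ha', inv_one]

lemma cj_comap (M : Subgroup G) (g : XT Q t p) :
    cj g (M.comap (SemidirectProduct.rightHom : XT Q t p →* G))
      = (cj g.right M).comap (SemidirectProduct.rightHom : XT Q t p →* G) := by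
  ext z
  rw [mem_cj, Subgroup.mem_comap, Subgroup.mem_comap, mem_cj]
  rfl

end Concrete

/-- the inductive hypothesis -/
def Hyp (a j q l : ℕ) : Prop :=
  ∃ (G : Type) (_ : Group G) (_ : Finite G) (_ : Group.IsSolvable G) (M : Subgroup G),
    IsCoatom M ∧ dser M (j + q) = ⊥ ∧
    ∀ g : Fin l → G, ¬ (dser (⊤ : Subgroup G) a ≤ ⨆ i, cj (g i) (dser M j))

theorem step (a j q l : ℕ) (h : Hyp a j (q + 1) (l + 1)) :
    ∃ t, Hyp (a + 1 + t) (j + 1 + t) q l := by
  classical
  obtain ⟨G, _, _, _, M, hM, hMd, hH⟩ := h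
  set Q := dser M (j + q) with hQ
  set P := dser M j with hP
  set A := dser (⊤ : Subgroup G) a with hA
  obtain ⟨t, ht⟩ : ∃ t, Nat.card G ≤ 2 ^ t := ⟨Nat.card G, Nat.lt_two_pow_self.le⟩
  have := Fintype.ofFinite G
  haveI : Fintype A := Fintype.ofFinite A
  obtain ⟨p, hp1, hp⟩ := Nat.exists_infinite_primes (Fintype.card A + 1)
  have : Fact p.Prime := ⟨hp⟩
  have : NeZero p := ⟨hp.ne_zero⟩
  have hAp : (Fintype.card A : ZMod p) ≠ 0 := by
    rw [Ne, ZMod.natCast_eq_zero_iff]
    intro hdvd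
    have := Nat.le_of_dvd Fintype.card_pos hdvd
    omega
  -- a surjection from `Fin (2^t)` onto `G`
  obtain ⟨w, hw⟩ : ∃ w : Fin (2 ^ t) → G, Function.Surjective w := by
    have hc : Fintype.card G ≤ Fintype.card (Fin (2 ^ t)) := by
      rw [Fintype.card_fin, ← Nat.card_eq_fintype_card]; exact ht
    obtain ⟨f⟩ := Function.Embedding.nonempty_of_card_le hc
    exact ⟨Function.invFun f, Function.invFun_surjective f.injective⟩
  refine ⟨t, XT Q t p, inferInstance, inferInstance, XT_solvable Q t p,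
    M.comap SemidirectProduct.rightHom,
    isCoatom_comap_of_surjective SemidirectProduct.rightHom_surjective hM, ?_, ?_⟩
  · have := claim1 Q (2 ^ t) (sd (ZMod p) t) M (j + q) t rfl hMd (dser_ker_sd (ZMod p) t)
    rw [← this]; congr 1; omega
  · intro g hle
    set X : Fin (2 ^ t) → Subgroup G := fun k =>
      ⨆ i, cj ((Fin.cons (w k) (fun i => (g i).right) : Fin (l + 1) → G) i) P with hX
    have hXw : ∀ k, cj (w k) P ≤ X k := fun k =>
      le_iSup (fun i => cj ((Fin.cons (w k) (fun i => (g i).right) : Fin (l + 1) → G) i) P) 0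
    have hXg : ∀ k i, cj (g i).right P ≤ X k := fun k i =>
      le_iSup (fun i => cj ((Fin.cons (w k) (fun i => (g i).right) : Fin (l + 1) → G) i) P) i.succ
    have hfix : ∀ k, ∀ x ∈ X k, x • ((X k : Set G)) = X k := by
      intro k x hx
      ext z
      rw [Set.mem_smul_set_iff_inv_smul_mem, smul_eq_mul]
      exact (X k).mul_mem_cancel_left ((X k).inv_mem hx)
    have hω : ∀ g' : G, ∃ k, ∀ x ∈ Q, x • (g' • (X k : Set G)) = g' • (X k : Set G) := by
      intro g'
      obtain ⟨k, hk⟩ := hw g'⁻¹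
      refine ⟨k, fun x hx => ?_⟩
      have hx' : g'⁻¹ * x * g' ∈ X k := by
        apply hXw k
        rw [hk, mem_cj]
        have : x ∈ P := dser_antitone M (Nat.le_add_right j q) hx
        simpa [mul_assoc] using this
      have h2 := hfix k _ hx'
      calc x • (g' • (X k : Set G)) = g' • ((g'⁻¹ * x * g') • (X k : Set G)) := by
            rw [smul_smul, smul_smul]; congr 1; group
        _ = g' • (X k : Set G) := by rw [h2]
    let ω : Om Q (2 ^ t) := ⟨fun k => (X k : Set G), hω⟩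
    have hmove : ∀ k, ∃ x ∈ A, x • ω.1 k ≠ ω.1 k := by
      intro k
      have h1 := hH (Fin.cons (w k) (fun i => (g i).right))
      rw [SetLike.not_le_iff_exists] at h1
      obtain ⟨x, hx, hx'⟩ := h1
      refine ⟨x, hx, fun h2 => hx' ?_⟩
      have h3 : x ∈ x • (X k : Set G) := by
        rw [Set.mem_smul_set_iff_inv_smul_mem]; simp
      have h4 : x • (X k : Set G) = X k := h2
      rw [h4] at h3
      exact h3
    obtain ⟨y, hy, hy1⟩ := claim2 Q t p A hAp a le_rfl ω hmove
    apply hy1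
    have hB : ∀ i, cj (g i) (dser (M.comap (SemidirectProduct.rightHom : XT Q t p →* G))
        (j + 1 + t)) ≤ Bw Q t p ω := by
      intro i
      rw [← dser_cj, cj_comap]
      have hfixω : ∀ x ∈ cj (g i).right P, x • ω = ω := by
        intro x hx
        apply Subtype.ext
        funext k
        exact hfix k x (hXg k i hx)
      intro z hz
      have e : j + 1 + t = j + (t + 1) := by omega
      rw [e, dser_add] at hz
      have h1 : dser ((cj (g i).right M).comap (SemidirectProduct.rightHom : XT Q t p →* G)) j ≤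
          (cj (g i).right P).comap (SemidirectProduct.rightHom : XT Q t p →* G) := by
        refine (dser_comap_le _ _ _).trans ?_
        rw [dser_cj]
      have h2 := dser_mono h1 (t + 1) hz
      refine ⟨hfixω _ ?_, ?_⟩
      · exact Subgroup.mem_comap.mp (dser_le _ (t + 1) h2)
      · exact dser_comap_fix Q (2 ^ t) (sd (ZMod p) t) _ ω hfixω (t + 1) (dser_KK_top _ t) z h2
    have h5 := (hle.trans (iSup_le hB)) hy
    exact h5.2

theorem descend (q : ℕ) : ∀ a j l : ℕ, Hyp a j q (q + l) →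
    ∃ a' j', a' + j = a + j' ∧ Hyp a' j' 0 l := by
  induction q with
  | zero => intro a j l h; exact ⟨a, j, rfl, by simpa using h⟩
  | succ q ih =>
    intro a j l h
    obtain ⟨t, ht⟩ := step a j q (q + l) (by rw [show q + l + 1 = q + 1 + l by omega]; exact h)
    obtain ⟨a', j', h1, h2⟩ := ih _ _ l ht
    exact ⟨a', j', by omega, h2⟩

end Pool.Agent.Helper76.DL
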