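import Mathlib
import Pool.Agent.Helper76.DL.Step

set_option autoImplicit false

namespace Pool.Agent.Helper76.DL

open Subgroup
open scoped commutatorElement

section Action

variable (F : Type) [Field F] (T : Type) [Group T]

/-- scalars times signed regular permutations -/
abbrev HH : Type := Fˣ × RegularWreathProduct ℤˣ T

variable {F T}

/-- the action of `HH` on functions `T → F` -/
def hs (h : HH F T) (v : T → F) : T → F :=
  fun x => (h.1 : F) * (((h.2.left x : ℤˣ) : ℤ) : F) * v (h.2.right⁻¹ * x)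

lemma hs_one (v : T → F) : hs 1 v = v := by
  funext x
  show ((1 : Fˣ) : F) * (((1 : ℤˣ) : ℤ) : F) * v ((1 : T)⁻¹ * x) = v x
  simp

lemma hs_mul (a b : HH F T) (v : T → F) : hs (a * b) v = hs a (hs b v) := by
  funext x
  show ((a.1 * b.1 : Fˣ) : F) * (((a.2.left x * b.2.left (a.2.right⁻¹ * x) : ℤˣ) : ℤ) : F) *
      v ((a.2.right * b.2.right)⁻¹ * x) =
    (a.1 : F) * (((a.2.left x : ℤˣ) : ℤ) : F) *
      ((b.1 : F) * (((b.2.left (a.2.right⁻¹ * x) : ℤˣ) : ℤ) : F) *
        v (b.2.right⁻¹ * (a.2.right⁻¹ * x)))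
  rw [mul_inv_rev, mul_assoc (b.2.right⁻¹) (a.2.right⁻¹) x]
  push_cast
  ring

lemma hs_add (h : HH F T) (u v : T → F) : hs h (u + v) = hs h u + hs h v := by
  funext x
  show _ * _ * (u _ + v _) = _ * _ * u _ + _ * _ * v _
  ring

variable (F T)

/-- the action of `HH` as automorphisms -/
def hEquiv (h : HH F T) : MulAut (Multiplicative (T → F)) where
  toFun v := Multiplicative.ofAdd (hs h (Multiplicative.toAdd v))
  invFun v := Multiplicative.ofAdd (hs h⁻¹ (Multiplicative.toAdd v))
  left_inv v := by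
    show Multiplicative.ofAdd (hs h⁻¹ (hs h (Multiplicative.toAdd v))) = v
    rw [← hs_mul, inv_mul_cancel, hs_one]; rfl
  right_inv v := by
    show Multiplicative.ofAdd (hs h (hs h⁻¹ (Multiplicative.toAdd v))) = v
    rw [← hs_mul, mul_inv_cancel, hs_one]; rfl
  map_mul' u v := by
    show Multiplicative.ofAdd (hs h (Multiplicative.toAdd u + Multiplicative.toAdd v)) = _
    rw [hs_add]; rfl

/-- the action of `HH` as a homomorphism -/
def hHom : HH F T →* MulAut (Multiplicative (T → F)) :=
  MonoidHom.mk' (hEquiv F T) (by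
    intro a b
    apply MulEquiv.ext
    intro v
    show Multiplicative.ofAdd (hs (a * b) (Multiplicative.toAdd v)) =
      Multiplicative.ofAdd (hs a (hs b (Multiplicative.toAdd v)))
    rw [hs_mul])

lemma hHom_apply (h : HH F T) (v : T → F) :
    hHom F T h (Multiplicative.ofAdd v) = Multiplicative.ofAdd (hs h v) := rfl

/-- the base group -/
abbrev G0 : Type := (Multiplicative (T → F)) ⋊[hHom F T] (HH F T)

/-- the base maximal subgroup -/
def M0 : Subgroup (G0 F T) := (SemidirectProduct.inr : HH F T →* G0 F T).range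

variable {F T}

lemma irred [Finite T] (h2 : (2 : F) ≠ 0) (S : AddSubgroup (T → F))
    (hS : ∀ (h : HH F T), ∀ v ∈ S, hs h v ∈ S) (hne : ∃ v ∈ S, v ≠ 0) : S = ⊤ := by
  classical
  obtain ⟨v, hv, hv0⟩ := hne
  obtain ⟨x0, hx0⟩ := Function.ne_iff.mp hv0
  simp only [Pi.zero_apply] at hx0
  have h1 : Pi.single x0 (2 * v x0) ∈ S := by
    have h3 : v - hs ((1 : Fˣ), (⟨fun x => if x = x0 then -1 else 1, 1⟩ :
        RegularWreathProduct ℤˣ T)) v ∈ S := S.sub_mem hv (hS _ v hv)
    convert h3 using 1
    funext x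
    show _ = v x - ((1 : Fˣ) : F) * (((if x = x0 then (-1 : ℤˣ) else 1 : ℤˣ) : ℤ) : F) *
      v ((1 : T)⁻¹ * x)
    by_cases hx : x = x0
    · subst hx; simp; ring
    · simp [hx]
  have h3 : ∀ f : F, Pi.single x0 f ∈ S := by
    intro f
    by_cases hf : f = 0
    · subst hf; simp [S.zero_mem]
    · have hc : f * (2 * v x0)⁻¹ ≠ 0 := mul_ne_zero hf (inv_ne_zero (mul_ne_zero h2 hx0))
      have := hS (Units.mk0 _ hc, 1) _ h1
      convert this using 1
      funext x
      show _ = ((Units.mk0 _ hc : Fˣ) : F) * (((1 : ℤˣ) : ℤ) : F) *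
        (Pi.single x0 (2 * v x0) : T → F) ((1 : T)⁻¹ * x)
      by_cases hx : x = x0
      · subst hx
        simp only [Pi.single_eq_same, Units.val_mk0, inv_one, one_mul, Units.val_one,
          Int.cast_one, mul_one]
        have := mul_ne_zero h2 hx0
        field_simp
      · simp [hx]
  have h4 : ∀ (x : T) (f : F), Pi.single x f ∈ S := by
    intro x f
    have := hS ((1 : Fˣ), (⟨1, x * x0⁻¹⟩ : RegularWreathProduct ℤˣ T)) _ (h3 f)
    convert this using 1
    funext y
    show _ = ((1 : Fˣ) : F) * (((1 : ℤˣ) : ℤ) : F) *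
        (Pi.single x0 f : T → F) ((x * x0⁻¹)⁻¹ * y)
    by_cases hy : y = x
    · subst hy; simp
    · have : (x * x0⁻¹)⁻¹ * y ≠ x0 := by
        intro h
        apply hy
        rw [inv_mul_eq_iff_eq_mul] at h
        rw [h]; group
      rw [Pi.single_eq_of_ne hy, Pi.single_eq_of_ne this, mul_zero]
  rw [eq_top_iff]
  intro u _
  have := Fintype.ofFinite T
  rw [← Finset.univ_sum_single u]
  exact S.sum_mem (fun x _ => h4 x (u x))

variable (F T)

/-- the vectors lying in a subgroup of the base group -/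
def vecs (S : Subgroup (G0 F T)) : AddSubgroup (T → F) where
  carrier := {v | (SemidirectProduct.inl (Multiplicative.ofAdd v) : G0 F T) ∈ S}
  zero_mem' := by
    show (SemidirectProduct.inl (Multiplicative.ofAdd 0) : G0 F T) ∈ S
    rw [ofAdd_zero, map_one]; exact S.one_mem
  add_mem' := by
    intro a b ha hb
    show (SemidirectProduct.inl (Multiplicative.ofAdd (a + b)) : G0 F T) ∈ S
    rw [ofAdd_add, map_mul]; exact S.mul_mem ha hb
  neg_mem' := by
    intro a ha
    show (SemidirectProduct.inl (Multiplicative.ofAdd (-a)) : G0 F T) ∈ S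
    rw [ofAdd_neg, map_inv]; exact S.inv_mem ha

lemma vecs_smul (S : Subgroup (G0 F T)) (hS : ∀ h : HH F T, ∀ z ∈ S,
    SemidirectProduct.inr h * z * (SemidirectProduct.inr h)⁻¹ ∈ S) (h : HH F T) (v : T → F)
    (hv : v ∈ vecs F T S) : hs h v ∈ vecs F T S := by
  have := hS h _ hv
  rw [← map_inv, ← SemidirectProduct.inl_aut, hHom_apply] at this
  exact this

lemma M0_coatom [Finite T] (h2 : (2 : F) ≠ 0) : IsCoatom (M0 F T) := by
  constructor
  · intro h
    have h1 : (SemidirectProduct.inl (Multiplicative.ofAdd (fun _ => (1 : F))) : G0 F T) ∈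
        M0 F T := by rw [h]; exact Subgroup.mem_top _
    obtain ⟨k, hk⟩ := h1
    have := congrArg SemidirectProduct.left hk
    rw [SemidirectProduct.left_inr, SemidirectProduct.left_inl] at this
    have h3 := congrArg Multiplicative.toAdd this
    have h4 := congrFun h3 1
    exact one_ne_zero h4.symm
  · intro S hS
    have hle : M0 F T ≤ S := hS.le
    have hinr : ∀ h : HH F T, (SemidirectProduct.inr h : G0 F T) ∈ S := fun h => hle ⟨h, rfl⟩
    have htop : vecs F T S = ⊤ := by
      apply irred h2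
      · intro h v hv
        exact vecs_smul F T S (fun h z hz => S.mul_mem (S.mul_mem (hinr h) hz)
          (S.inv_mem (hinr h))) h v hv
      · obtain ⟨z, hz, hz'⟩ := SetLike.exists_of_lt hS
        refine ⟨Multiplicative.toAdd z.left, ?_, ?_⟩
        · show (SemidirectProduct.inl z.left : G0 F T) ∈ S
          have : (SemidirectProduct.inl z.left : G0 F T) =
              z * (SemidirectProduct.inr z.right)⁻¹ := by
            rw [eq_mul_inv_iff_mul_eq, SemidirectProduct.inl_left_mul_inr_right]
          rw [this]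
          exact S.mul_mem hz (S.inv_mem (hinr _))
        · intro h0
          apply hz'
          refine ⟨z.right, ?_⟩
          apply SemidirectProduct.ext
          · exact h0.symm
          · rfl
    rw [eq_top_iff]
    intro z _
    rw [← SemidirectProduct.inl_left_mul_inr_right z]
    refine S.mul_mem ?_ (hinr _)
    have : Multiplicative.toAdd z.left ∈ vecs F T S := by rw [htop]; trivial
    exact this

lemma V_le [Finite T] (h2 : (2 : F) ≠ 0) (t : ℕ) (hT : dser (⊤ : Subgroup T) t ≠ ⊥) (i : ℕ)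
    (hi : i ≤ t + 1) (v : T → F) :
    (SemidirectProduct.inl (Multiplicative.ofAdd v) : G0 F T) ∈
      dser (⊤ : Subgroup (G0 F T)) i := by
  classical
  induction i generalizing v with
  | zero => exact Subgroup.mem_top _
  | succ i ih =>
    have htop : vecs F T (dser (⊤ : Subgroup (G0 F T)) (i + 1)) = ⊤ := by
      apply irred h2
      · intro h v hv
        exact vecs_smul F T _ (fun h z hz =>
          (dser_top_normal (i + 1)).conj_mem z hz (SemidirectProduct.inr h)) h v hv
      · have hTi : dser (⊤ : Subgroup T) i ≠ ⊥ := by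
          intro h
          apply hT
          rw [eq_bot_iff, ← h]
          exact dser_antitone _ (by omega)
        obtain ⟨⟨τ, hτ⟩, hτ1⟩ := (Subgroup.ne_bot_iff_exists_ne_one).mp hTi
        have hτ1' : τ ≠ 1 := fun h => hτ1 (Subtype.ext h)
        set h : HH F T := ((1 : Fˣ), RegularWreathProduct.inl τ) with hh
        have hmem : (SemidirectProduct.inr h : G0 F T) ∈ dser (⊤ : Subgroup (G0 F T)) i := by
          have e1 : (SemidirectProduct.inr h : G0 F T) =
              ((SemidirectProduct.inr : HH F T →* G0 F T).comp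
                ((MonoidHom.inr Fˣ (RegularWreathProduct ℤˣ T)).comp
                  (RegularWreathProduct.inl : T →* RegularWreathProduct ℤˣ T))) τ := rfl
          rw [e1]
          have e2 := Subgroup.mem_map_of_mem ((SemidirectProduct.inr : HH F T →* G0 F T).comp
                ((MonoidHom.inr Fˣ (RegularWreathProduct ℤˣ T)).comp
                  (RegularWreathProduct.inl : T →* RegularWreathProduct ℤˣ T))) hτ
          rw [dser_map] at e2
          exact dser_mono le_top i e2
        have hv := ih (by omega) (Pi.single 1 1)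
        have hc := Subgroup.commutator_mem_commutator hmem hv
        rw [← dser_succ] at hc
        refine ⟨hs h (Pi.single 1 1) - Pi.single 1 1, ?_, ?_⟩
        · show (SemidirectProduct.inl (Multiplicative.ofAdd
            (hs h (Pi.single 1 1) - Pi.single 1 1)) : G0 F T) ∈
              dser (⊤ : Subgroup (G0 F T)) (i + 1)
          convert hc using 1
          rw [commutatorElement_def, ofAdd_sub, div_eq_mul_inv, map_mul, ← hHom_apply,
            SemidirectProduct.inl_aut, map_inv, map_inv]
        · intro h0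
          have h3 := congrFun h0 1
          have h4 : hs h (Pi.single 1 1 : T → F) 1 = 0 := by
            show ((1 : Fˣ) : F) * (((1 : ℤˣ) : ℤ) : F) *
              (Pi.single 1 1 : T → F) (τ⁻¹ * 1) = 0
            rw [Pi.single_eq_of_ne (by simpa using hτ1'), mul_zero]
          rw [Pi.sub_apply, h4] at h3
          simp at h3
    have : v ∈ vecs F T (dser (⊤ : Subgroup (G0 F T)) (i + 1)) := by rw [htop]; trivial
    exact this

lemma HH_dser (t : ℕ) (hT : dser (⊤ : Subgroup T) (t + 1) = ⊥) :
    dser (⊤ : Subgroup (HH F T)) (t + 2) = ⊥ := by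
  rw [dser_succ, eq_bot_iff, Subgroup.commutator_le]
  have key : ∀ a ∈ dser (⊤ : Subgroup (HH F T)) (t + 1), a.2.right = 1 := by
    intro a ha
    have h1 : a ∈ (dser (⊤ : Subgroup T) (t + 1)).comap
        ((RegularWreathProduct.rightHom : RegularWreathProduct ℤˣ T →* T).comp
          (MonoidHom.snd Fˣ (RegularWreathProduct ℤˣ T))) := by
      apply dser_comap_le
      exact dser_mono (fun _ _ => Subgroup.mem_top _) _ ha
    rw [hT, Subgroup.mem_comap, Subgroup.mem_bot] at h1
    exact h1
  intro a ha b hb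
  rw [Subgroup.mem_bot, commutatorElement_eq_one_iff_mul_comm]
  have h1 := key a ha
  have h2 := key b hb
  apply Prod.ext
  · exact mul_comm _ _
  · apply RegularWreathProduct.ext
    · funext x
      show a.2.left x * b.2.left (a.2.right⁻¹ * x) = b.2.left x * a.2.left (b.2.right⁻¹ * x)
      rw [h1, h2]; simp [mul_comm]
    · show a.2.right * b.2.right = b.2.right * a.2.right
      rw [h1, h2]

lemma HH_fst (a : HH F T) (ha : a ∈ dser (⊤ : Subgroup (HH F T)) 1) : a.1 = 1 := by
  have h1 : a ∈ (dser (⊤ : Subgroup Fˣ) 1).comap (MonoidHom.fst Fˣ (RegularWreathProduct ℤˣ T)) := by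
    apply dser_comap_le
    exact dser_mono (fun _ _ => Subgroup.mem_top _) _ ha
  have h2 : dser (⊤ : Subgroup Fˣ) 1 = ⊥ := by
    rw [dser_succ, eq_bot_iff, Subgroup.commutator_le]
    intro x _ y _
    rw [Subgroup.mem_bot]
    exact comm_map_eq_one (MonoidHom.id _) x y
  rw [h2, Subgroup.mem_comap, Subgroup.mem_bot] at h1
  exact h1

lemma M0_eq : M0 F T = (⊤ : Subgroup (HH F T)).map SemidirectProduct.inr := by
  unfold M0; rw [MonoidHom.range_eq_map]

lemma M0_dser (t : ℕ) (hT : dser (⊤ : Subgroup T) (t + 1) = ⊥) :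
    dser (M0 F T) (t + 2) = ⊥ := by
  rw [M0_eq, ← dser_map, HH_dser F T t hT, Subgroup.map_bot]

lemma HH_solvable (t : ℕ) (hT : dser (⊤ : Subgroup T) (t + 1) = ⊥) :
    Group.IsSolvable (HH F T) := by
  rw [Group.isSolvable_def]
  exact ⟨t + 2, by rw [← dser_top]; exact HH_dser F T t hT⟩

lemma G0_solvable (t : ℕ) (hT : dser (⊤ : Subgroup T) (t + 1) = ⊥) :
    Group.IsSolvable (G0 F T) := by
  have := HH_solvable F T t hT
  refine Group.isSolvable_of_ker_le_range
    (SemidirectProduct.inl : Multiplicative (T → F) →* G0 F T)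
    (SemidirectProduct.rightHom : G0 F T →* HH F T) ?_
  rw [SemidirectProduct.range_inl_eq_ker_rightHom]

/-- elements with vector part in `L` and trivial scalar part -/
def BL (L : AddSubgroup F) : Subgroup (G0 F T) where
  carrier := {z | (∀ x, Multiplicative.toAdd z.left x ∈ L) ∧ z.right.1 = 1}
  one_mem' := ⟨fun _ => L.zero_mem, rfl⟩
  mul_mem' := by
    rintro a b ⟨ha, ha'⟩ ⟨hb, hb'⟩
    refine ⟨fun x => ?_, ?_⟩
    · show Multiplicative.toAdd a.left x + hs a.right (Multiplicative.toAdd b.left) x ∈ L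
      refine L.add_mem (ha x) ?_
      show (a.right.1 : F) * (((a.right.2.left x : ℤˣ) : ℤ) : F) *
        Multiplicative.toAdd b.left (a.right.2.right⁻¹ * x) ∈ L
      rw [ha', Units.val_one, one_mul, ← zsmul_eq_mul]
      exact L.zsmul_mem (hb _) _
    · show a.right.1 * b.right.1 = 1
      rw [ha', hb', one_mul]
  inv_mem' := by
    rintro a ⟨ha, ha'⟩
    have hinv : (a.right⁻¹).1 = 1 := by
      show (a.right.1)⁻¹ = 1
      rw [ha', inv_one]
    refine ⟨fun x => ?_, hinv⟩
    show ((a.right⁻¹).1 : F) * ((((a.right⁻¹).2.left x : ℤˣ) : ℤ) : F) *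
        (-Multiplicative.toAdd a.left ((a.right⁻¹).2.right⁻¹ * x)) ∈ L
    rw [hinv, Units.val_one, one_mul, ← zsmul_eq_mul]
    exact L.zsmul_mem (L.neg_mem (ha _)) _

lemma cj_le_BL (L : AddSubgroup F) (g : G0 F T) (hg : ∀ x, Multiplicative.toAdd g.left x ∈ L) :
    cj g (dser (M0 F T) 1) ≤ BL F T L := by
  rw [M0_eq, ← dser_map]
  intro z hz
  rw [mem_cj] at hz
  obtain ⟨h, hh, hz⟩ := hz
  have hz2 : z = g * SemidirectProduct.inr h * g⁻¹ := by
    rw [hz]; group
  have h1 := HH_fst F T h hh
  have hr : z.right = g.right * h * g.right⁻¹ := by rw [hz2]; rfl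
  have hl : Multiplicative.toAdd z.left = Multiplicative.toAdd g.left +
      hs (g.right * h * g.right⁻¹) (-Multiplicative.toAdd g.left) := by
    rw [hz2, hs_mul]
    show Multiplicative.toAdd g.left + hs g.right 0 + hs (g.right * h) (hs g.right⁻¹
      (-Multiplicative.toAdd g.left)) = _
    have : hs g.right (0 : T → F) = 0 := by
      funext x; show _ * _ * (0 : F) = 0; rw [mul_zero]
    rw [this, add_zero]
  have hfst : (g.right * h * g.right⁻¹).1 = 1 := by
    show g.right.1 * h.1 * (g.right.1)⁻¹ = 1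
    rw [h1]; simp
  refine ⟨fun x => ?_, ?_⟩
  · rw [hl]
    refine L.add_mem (hg x) ?_
    show ((g.right * h * g.right⁻¹).1 : F) *
      ((((g.right * h * g.right⁻¹).2.left x : ℤˣ) : ℤ) : F) *
        (-Multiplicative.toAdd g.left ((g.right * h * g.right⁻¹).2.right⁻¹ * x)) ∈ L
    rw [hfst, Units.val_one, one_mul, ← zsmul_eq_mul]
    exact L.zsmul_mem (L.neg_mem (hg _)) _
  · rw [hr]; exact hfst

end Action

/-- finite soluble groups of arbitrary derived length -/
lemma exists_T (t : ℕ) : ∃ (T : Type) (_ : Group T) (_ : Finite T),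
    dser (⊤ : Subgroup T) t ≠ ⊥ ∧ dser (⊤ : Subgroup T) (t + 1) = ⊥ := by
  refine ⟨KK (ZMod 2) t, inferInstance, ?_, ?_, dser_KK_top _ _⟩
  · have : Finite (ZMod 2) := Finite.of_fintype _
    infer_instance
  · apply dser_ne_bot
    intro l
    exact ⟨tv (ZMod 2) t l 1, Subgroup.mem_top _, fun j => sd_tv (ZMod 2) t l j 1⟩

lemma exists_F (n : ℕ) : ∃ (F : Type) (_ : Field F) (_ : Finite F), (2 : F) ≠ 0 ∧
    ∀ (ι : Type) (_ : Finite ι) (f : ι → F), Nat.card ι ≤ n →
      ∃ L : AddSubgroup F, (∀ i, f i ∈ L) ∧ ∃ x, x ∉ L := by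
  have : Fact (Nat.Prime 3) := ⟨Nat.prime_three⟩
  refine ⟨GaloisField 3 (n + 1), inferInstance, inferInstance, ?_, ?_⟩
  · have : CharP (GaloisField 3 (n + 1)) 3 := inferInstance
    intro h
    have := (CharP.cast_eq_zero_iff (GaloisField 3 (n + 1)) 3 2).mp (by exact_mod_cast h)
    omega
  · intro ι _ f hι
    have := Fintype.ofFinite ι
    refine ⟨(Submodule.span (ZMod 3) (Set.range f)).toAddSubgroup, ?_, ?_⟩
    · intro i
      exact Submodule.subset_span ⟨i, rfl⟩
    · by_contra hcon
      push Not at hcon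
      have htop : Submodule.span (ZMod 3) (Set.range f) = ⊤ := by
        rw [eq_top_iff]; intro x _; exact hcon x
      have h1 : Module.finrank (ZMod 3) (Submodule.span (ZMod 3) (Set.range f)) ≤
          Fintype.card ι := finrank_range_le_card f
      rw [htop, finrank_top, GaloisField.finrank 3 (Nat.succ_ne_zero n)] at h1
      rw [Nat.card_eq_fintype_card] at hι
      omega

theorem base (t : ℕ) : Hyp (t + 1) 1 (t + 1) (t + 1) := by
  obtain ⟨T, _, _, hT1, hT2⟩ := exists_T t
  obtain ⟨F, _, _, h2, hL⟩ := exists_F (Nat.card (Fin (t + 1) × T))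
  refine ⟨G0 F T, inferInstance, ?_, G0_solvable F T t hT2, M0 F T, M0_coatom F T h2, ?_, ?_⟩
  · have : Finite (RegularWreathProduct ℤˣ T) := inferInstance
    exact Finite.of_equiv _ SemidirectProduct.equivProd.symm
  · rw [show 1 + (t + 1) = t + 2 by omega]
    exact M0_dser F T t hT2
  · intro g hle
    obtain ⟨L, hL1, x, hx⟩ := hL (Fin (t + 1) × T) inferInstance
      (fun q => Multiplicative.toAdd (g q.1).left q.2) le_rfl
    have hB : (⨆ i, cj (g i) (dser (M0 F T) 1)) ≤ BL F T L :=
      iSup_le fun i => cj_le_BL F T L (g i) (fun y => hL1 (i, y))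
    have h3 := (hle.trans hB) (V_le F T h2 t hT1 (t + 1) le_rfl (fun _ => x))
    exact hx (h3.1 1)

theorem main (k : ℕ) : ∃ (G : Type) (_ : Group G) (_ : Finite G) (_ : Group.IsSolvable G)
    (M : Subgroup G), IsCoatom M ∧ ∃ a j, derivedSeries M j = ⊥ ∧ derivedSeries G a ≠ ⊥ ∧
      j + k ≤ a := by
  obtain ⟨a, j, haj, G, _, _, _, M, hM, hMd, hH⟩ := descend (k + 1) (k + 1) 1 0 (base k)
  refine ⟨G, inferInstance, inferInstance, inferInstance, M, hM, a, j, ?_, ?_, by omega⟩
  · rw [derivedSeries_eq_bot_iff]; simpa using hMd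
  · intro h
    apply hH Fin.elim0
    rw [dser_top, h]; exact bot_le

end Pool.Agent.Helper76.DL
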