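import Mathlib

set_option autoImplicit false

namespace Pool.Agent.Helper76.DL

/-- The derived length `d(X)`: the least `n` with `X^(n) = 1`. -/
noncomputable def derivedLength (X : Type) [Group X] : ℕ :=
  sInf {n : ℕ | derivedSeries X n = ⊥}

/-- `k*`, the supremum of `d(G) - d(M)` over all finite soluble groups `G` and all
maximal subgroups `M` of `G`, as an element of `{0,1,2,...} ∪ {∞}`. -/
noncomputable def kStar : ℕ∞ :=
  sSup {x : ℕ∞ | ∃ (G : Type) (_ : Group G) (_ : Finite G) (_ : Group.IsSolvable G)
    (M : Subgroup G), IsCoatom M ∧ x = ((derivedLength G - derivedLength M : ℕ) : ℕ∞)}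

end Pool.Agent.Helper76.DL
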