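import Mathlib
import Pool.Agent.Helper76.DL.Base
import Pool.Agent.Helper76.DL.Defs

set_option autoImplicit false

namespace Pool.Agent.Helper76.DL

lemma derivedLength_le {X : Type} [Group X] {n : ℕ} (h : derivedSeries X n = ⊥) :
    derivedLength X ≤ n := Nat.sInf_le h

lemma lt_derivedLength {X : Type} [Group X] [Group.IsSolvable X] {n : ℕ}
    (h : derivedSeries X n ≠ ⊥) : n < derivedLength X := by
  by_contra hcon
  push Not at hcon
  apply h
  have hne : {n : ℕ | derivedSeries X n = ⊥}.Nonempty :=
    (Group.isSolvable_def X).mp inferInstance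
  have h1 : derivedSeries X (derivedLength X) = ⊥ := Nat.sInf_mem hne
  rw [eq_bot_iff, ← h1]
  exact derivedSeries_antitone X hcon

theorem kStar_eq_top : kStar = ⊤ := by
  rw [ENat.eq_top_iff_forall_ge]
  intro k
  obtain ⟨G, _, _, _, M, hM, a, j, hj, ha, hk⟩ := main k
  have h1 := derivedLength_le hj
  have h2 := lt_derivedLength ha
  refine le_trans ?_ (le_sSup ⟨G, inferInstance, inferInstance, inferInstance, M, hM, rfl⟩)
  rw [Nat.cast_le]
  omega

end Pool.Agent.Helper76.DL
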